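import Pool.Agent.Helper96.SE.St

/-!
# Project SE (MP_6090f9_nt): module O3 (free part with respect to n-th powers, in one variable)
-/

set_option autoImplicit false

namespace Pool.Agent.Helper74.SE

open NumberField IsDedekindDomain Polynomial Filter Topology
open Pool.Agent.Helper96.SE Pool.Agent.Helper96.BC Pool.Agent.Helper95.TT Pool.Agent.Helper24.TF
  Pool.Agent.Helper95.WS

/-- removing `n`-th powers over a field -/
private theorem pw_O3 (L : Type) [Field L] (n : ℕ) (hn : 1 ≤ n) :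
    ∀ (N : ℕ) (E : L[X]), E.natDegree ≤ N → E ≠ 0 →
    ∃ P Q : L[X], E = P * Q ^ n ∧ ∀ p : L[X], Irreducible p → ¬ p ^ n ∣ P := by
  intro N
  induction N with
  | zero =>
    intro E hN hE
    refine ⟨E, 1, by simp, fun p hp hd => ?_⟩
    have h1 : p ∣ E := (dvd_pow_self p (by omega)).trans hd
    have h2 := Polynomial.natDegree_le_of_dvd h1 hE
    have h3 := hp.natDegree_pos
    omega
  | succ N ih =>
    intro E hN hE
    by_cases hs : ∀ p : L[X], Irreducible p → ¬ p ^ n ∣ E
    · exact ⟨E, 1, by simp, hs⟩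
    · push Not at hs
      obtain ⟨p, hp, c, hc⟩ := hs
      have hp0 : p ^ n ≠ 0 := pow_ne_zero _ hp.ne_zero
      have hc0 : c ≠ 0 := by
        rintro rfl
        exact hE (by rw [hc, mul_zero])
      have hdeg : E.natDegree = n * p.natDegree + c.natDegree := by
        rw [hc, Polynomial.natDegree_mul hp0 hc0, Polynomial.natDegree_pow]
      have hpos := hp.natDegree_pos
      have hle : 1 ≤ n * p.natDegree := Nat.mul_pos hn hpos
      obtain ⟨P, Q, h1, h2⟩ := ih c (by omega) hc0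
      exact ⟨P, p * Q, by rw [hc, h1]; ring, h2⟩

variable {A : Type} [CommRing A] [IsDomain A]

/-- clearing denominators of a polynomial -/
private theorem clr_O3 (P : (FractionRing A)[X]) (hP : P ≠ 0) :
    ∃ (α : A) (P₀ : A[X]), α ≠ 0 ∧ P₀ ≠ 0 ∧
      P₀.map (algebraMap A (FractionRing A)) = C (algebraMap A (FractionRing A) α) * P := by
  obtain ⟨α, hα, hP0⟩ := IsLocalization.integerNormalization_spec (nonZeroDivisors A) P
  have h0 : α ≠ 0 := nonZeroDivisors.ne_zero hα
  have hinj : Function.Injective (algebraMap A (FractionRing A)) := IsFractionRing.injective _ _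
  have e1 : ((α : A) • P) = C (algebraMap A (FractionRing A) α) * P := by
    rw [← Polynomial.smul_eq_C_mul, algebraMap_smul]
  rw [e1] at hP0
  refine ⟨α, IsLocalization.integerNormalization (nonZeroDivisors A) P, h0, ?_, hP0⟩
  intro h
  rw [h, Polynomial.map_zero] at hP0
  have hια : algebraMap A (FractionRing A) α ≠ 0 := by
    intro h'
    exact h0 (hinj (by rw [h', map_zero]))
  exact mul_ne_zero (Polynomial.C_ne_zero.2 hια) hP hP0.symm

/-- clearing denominators in a Bezout relation -/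
private theorem bez_O3 (f g : A[X])
    (h : IsCoprime (f.map (algebraMap A (FractionRing A))) (g.map (algebraMap A (FractionRing A)))) :
    ∃ (a b : A[X]) (c : A), c ≠ 0 ∧ a * f + b * g = C c := by
  obtain ⟨α, β, hαβ⟩ := h
  obtain ⟨b₁, hm₁, hb₁⟩ := IsLocalization.integerNormalization_spec (nonZeroDivisors A) α
  obtain ⟨b₂, hm₂, hb₂⟩ := IsLocalization.integerNormalization_spec (nonZeroDivisors A) β
  have h1 : b₁ ≠ 0 := nonZeroDivisors.ne_zero hm₁
  have h2 : b₂ ≠ 0 := nonZeroDivisors.ne_zero hm₂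
  refine ⟨C (b₂ : A) * IsLocalization.integerNormalization (nonZeroDivisors A) α,
    C (b₁ : A) * IsLocalization.integerNormalization (nonZeroDivisors A) β,
    (b₁ : A) * b₂, mul_ne_zero h1 h2, ?_⟩
  apply Polynomial.map_injective (algebraMap A (FractionRing A)) (IsFractionRing.injective _ _)
  simp only [Polynomial.map_add, Polynomial.map_mul, Polynomial.map_C, hb₁, hb₂]
  have e1 : ((b₁ : A) • α) = C (algebraMap A (FractionRing A) b₁) * α := by
    rw [← Polynomial.smul_eq_C_mul, algebraMap_smul]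
  have e2 : ((b₂ : A) • β) = C (algebraMap A (FractionRing A) b₂) * β := by
    rw [← Polynomial.smul_eq_C_mul, algebraMap_smul]
  rw [e1, e2, map_mul, map_mul]
  linear_combination (C (algebraMap A (FractionRing A) b₁) *
    C (algebraMap A (FractionRing A) b₂)) * hαβ

/-- the reduction of a polynomial with an irreducible factor of multiplicity `r` -/
private theorem red_O3 (n r : ℕ) (hr : ¬ n ∣ r) (P p P₃ a b a' b' : A[X]) (c₁ c₂ u w : A)
    (hp : 1 ≤ p.natDegree)
    (h1 : a * p + b * P₃ = C c₁) (h2 : a' * p + b' * derivative p = C c₂)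
    (h3 : C u * P = C w * (p ^ r * P₃)) (κ : Type) [Field κ] (φ : A →+* κ)
    (e1 : φ c₁ ≠ 0) (e2 : φ c₂ ≠ 0) (eu : φ u ≠ 0) (ew : φ w ≠ 0)
    (el : φ p.leadingCoeff ≠ 0) : NP n (P.map φ) := by
  have hdp : (p.map φ).natDegree = p.natDegree :=
    Polynomial.natDegree_map_of_leadingCoeff_ne_zero _ el
  have hp0 : p.map φ ≠ 0 := by
    intro h
    rw [h, Polynomial.natDegree_zero] at hdp
    omega
  have hnu : ¬ IsUnit (p.map φ) := by
    intro h
    have := Polynomial.natDegree_eq_zero_of_isUnit h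
    omega
  obtain ⟨π, hπ, s, hs⟩ := WfDvdMonoid.exists_irreducible_factor hnu hp0
  have hpr : Prime π := hπ.prime
  have hC : ∀ c : A, φ c ≠ 0 → ¬ π ∣ C (φ c) := by
    intro c hc hd
    exact hπ.not_isUnit (isUnit_of_dvd_unit hd (Polynomial.isUnit_C.2 (IsUnit.mk0 _ hc)))
  have h1' : a.map φ * p.map φ + b.map φ * P₃.map φ = C (φ c₁) := by
    have := congrArg (Polynomial.map φ) h1
    simpa using this
  have h2' : a'.map φ * p.map φ + b'.map φ * derivative (p.map φ) = C (φ c₂) := by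
    have := congrArg (Polynomial.map φ) h2
    simpa [Polynomial.derivative_map] using this
  have h3' : C (φ u) * P.map φ = C (φ w) * (p.map φ ^ r * P₃.map φ) := by
    have := congrArg (Polynomial.map φ) h3
    simpa using this
  have hπ3 : ¬ π ∣ P₃.map φ := by
    intro hd
    apply hC c₁ e1
    rw [← h1']
    exact dvd_add ((Dvd.intro s hs.symm).mul_left _) (hd.mul_left _)
  have hπs : ¬ π ∣ s := by
    intro hd
    obtain ⟨t, ht⟩ := hd
    apply hC c₂ e2
    rw [← h2']
    refine dvd_add ((Dvd.intro s hs.symm).mul_left _) (Dvd.dvd.mul_left ?_ _)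
    rw [hs, ht, Polynomial.derivative_mul, Polynomial.derivative_mul]
    exact ⟨derivative π * t + (derivative π * t + π * derivative t), by ring⟩
  refine ⟨π, C ((φ u)⁻¹ * φ w) * (s ^ r * P₃.map φ), r, hπ, ?_, hr, ?_⟩
  · intro hd
    rcases hpr.dvd_or_dvd hd with h | h
    · exact hπ.not_isUnit (isUnit_of_dvd_unit h (Polynomial.isUnit_C.2
        (IsUnit.mk0 _ (mul_ne_zero (inv_ne_zero eu) ew))))
    · rcases hpr.dvd_or_dvd h with h | h
      · exact hπs (hpr.dvd_of_dvd_pow h)
      · exact hπ3 h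
  · have hcan : C (φ u)⁻¹ * C (φ u) = (1 : κ[X]) := by
      rw [← C_mul, inv_mul_cancel₀ eu, C_1]
    calc P.map φ = C (φ u)⁻¹ * (C (φ u) * P.map φ) := by rw [← mul_assoc, hcan, one_mul]
      _ = C (φ u)⁻¹ * (C (φ w) * ((π * s) ^ r * P₃.map φ)) := by rw [h3', hs]
      _ = π ^ r * (C ((φ u)⁻¹ * φ w) * (s ^ r * P₃.map φ)) := by
        rw [C_mul, mul_pow]
        ring

private theorem key_O3 [CharZero A] (n : ℕ) (hn : n.Prime) (E : A[X]) (hE : E ≠ 0) :
    ∃ (δ : A) (P Q : A[X]), δ ≠ 0 ∧ P ≠ 0 ∧ Q ≠ 0 ∧ C δ ^ n * E = P * Q ^ n ∧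
      (P.natDegree = 0 ∨ ∃ P₂ : A, P₂ ≠ 0 ∧ ∀ (κ : Type) [Field κ] (φ : A →+* κ), φ P₂ ≠ 0 →
        NP n (P.map φ) ∧ (P.map φ).natDegree = P.natDegree) := by
  have hinj : Function.Injective (algebraMap A (FractionRing A)) := IsFractionRing.injective _ _
  have hinjX : Function.Injective (Polynomial.map (algebraMap A (FractionRing A))) :=
    Polynomial.map_injective _ hinj
  have hch : CharZero (FractionRing A) := charZero_of_injective_algebraMap hinj
  have hι : ∀ a : A, a ≠ 0 → algebraMap A (FractionRing A) a ≠ 0 := by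
    intro a ha h'
    exact ha (hinj (by rw [h', map_zero]))
  have hE' : E.map (algebraMap A (FractionRing A)) ≠ 0 := by
    intro h
    exact hE (hinjX (by rw [h, Polynomial.map_zero]))
  obtain ⟨P₁, Q₁, h1, hfree⟩ := pw_O3 (FractionRing A) n hn.one_lt.le _ _ le_rfl hE'
  have hP1 : P₁ ≠ 0 := by
    rintro rfl
    exact hE' (by rw [h1, zero_mul])
  have hQ1 : Q₁ ≠ 0 := by
    rintro rfl
    exact hE' (by rw [h1, zero_pow hn.ne_zero, mul_zero])
  obtain ⟨α, P₀, hα, hP₀, eP⟩ := clr_O3 P₁ hP1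
  obtain ⟨β, Q₀, hβ, hQ₀, eQ⟩ := clr_O3 Q₁ hQ1
  obtain ⟨n', hn'⟩ : ∃ n', n = n' + 1 := ⟨n - 1, by have := hn.one_lt; omega⟩
  have hP : C (α ^ n') * P₀ ≠ 0 := mul_ne_zero (C_ne_zero.2 (pow_ne_zero _ hα)) hP₀
  refine ⟨α * β, C (α ^ n') * P₀, Q₀, mul_ne_zero hα hβ, hP, hQ₀, ?_, ?_⟩
  · apply hinjX
    simp only [Polynomial.map_mul, Polynomial.map_pow, Polynomial.map_C, eP, eQ, h1, map_mul,
      map_pow, hn']
    ring
  have emap : (C (α ^ n') * P₀).map (algebraMap A (FractionRing A)) =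
      C (algebraMap A (FractionRing A) (α ^ n)) * P₁ := by
    simp only [Polynomial.map_mul, Polynomial.map_pow, Polynomial.map_C, eP, map_pow, hn']
    ring
  rcases Nat.eq_zero_or_pos P₁.natDegree with hd | hd
  · left
    have h2 := Polynomial.natDegree_map_eq_of_injective hinj (C (α ^ n') * P₀)
    rw [emap, Polynomial.natDegree_C_mul (hι _ (pow_ne_zero _ hα)), hd] at h2
    exact h2.symm
  · right
    have hnu : ¬ IsUnit P₁ := by
      intro h
      have := Polynomial.natDegree_eq_zero_of_isUnit h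
      omega
    obtain ⟨p, hp, hpd⟩ := WfDvdMonoid.exists_irreducible_factor hnu hP1
    have hfm : FiniteMultiplicity p P₁ := FiniteMultiplicity.of_not_isUnit hp.not_isUnit hP1
    obtain ⟨P₃, hP₃, hnd⟩ := hfm.exists_eq_pow_mul_and_not_dvd
    set r := multiplicity p P₁ with hr
    have hr1 : 1 ≤ r := by
      rcases Nat.eq_zero_or_pos r with h0 | h0
      · exfalso
        rw [h0, pow_zero, one_mul] at hP₃
        exact hnd (hP₃ ▸ hpd)
      · exact h0
    have hrn : r < n := by
      by_contra hcon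
      apply hfree p hp
      rw [hP₃]
      exact (pow_dvd_pow p (by omega)).mul_right _
    have hnr : ¬ n ∣ r := fun h => by
      have := Nat.le_of_dvd (by omega) h
      omega
    have hP₃0 : P₃ ≠ 0 := by
      rintro rfl
      exact hP1 (by rw [hP₃, mul_zero])
    obtain ⟨b, pt, hb, hpt, ep⟩ := clr_O3 p hp.ne_zero
    obtain ⟨b₃, P₃t, hb₃, hP₃t, ep₃⟩ := clr_O3 P₃ hP₃0
    have hcop : IsCoprime p P₃ := (hp.coprime_iff_not_dvd).2 hnd
    have hUb : IsUnit (C (algebraMap A (FractionRing A) b)) :=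
      Polynomial.isUnit_C.2 (IsUnit.mk0 _ (hι b hb))
    have hUb₃ : IsUnit (C (algebraMap A (FractionRing A) b₃)) :=
      Polynomial.isUnit_C.2 (IsUnit.mk0 _ (hι b₃ hb₃))
    obtain ⟨a, a₂, c₁, hc₁, hB⟩ := bez_O3 pt P₃t (by
      rw [ep, ep₃]
      exact (isCoprime_mul_unit_left_left hUb _ _).2
        ((isCoprime_mul_unit_left_right hUb₃ _ _).2 hcop))
    have hsep : (pt.map (algebraMap A (FractionRing A))).Separable := by
      rw [ep]
      exact hp.separable.unit_mul hUb
    obtain ⟨a', a₂', c₂, hc₂, hB'⟩ := bez_O3 pt (derivative pt) (by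
      rw [← Polynomial.derivative_map]
      exact hsep)
    have hptd : 1 ≤ pt.natDegree := by
      have h2 := Polynomial.natDegree_map_eq_of_injective hinj pt
      rw [ep, Polynomial.natDegree_C_mul (hι b hb)] at h2
      rw [← h2]
      exact hp.natDegree_pos
    have h3 : C (b ^ r * b₃) * (C (α ^ n') * P₀) = C (α ^ n) * (pt ^ r * P₃t) := by
      apply hinjX
      rw [Polynomial.map_mul, emap, Polynomial.map_mul, Polynomial.map_mul, Polynomial.map_pow,
        Polynomial.map_C, Polynomial.map_C, ep, ep₃]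
      nth_rewrite 1 [hP₃]
      simp only [map_mul, map_pow, mul_pow]
      ring
    refine ⟨c₁ * c₂ * (b ^ r * b₃) * α ^ n * pt.leadingCoeff * (C (α ^ n') * P₀).leadingCoeff,
      ?_, ?_⟩
    · exact mul_ne_zero (mul_ne_zero (mul_ne_zero (mul_ne_zero (mul_ne_zero hc₁ hc₂)
        (mul_ne_zero (pow_ne_zero _ hb) hb₃)) (pow_ne_zero _ hα)) (leadingCoeff_ne_zero.2 hpt))
        (leadingCoeff_ne_zero.2 hP)
    · intro κ _ φ hφ
      rw [map_mul, map_mul, map_mul, map_mul, map_mul] at hφ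
      have g1 := right_ne_zero_of_mul hφ
      have hφ := left_ne_zero_of_mul hφ
      have g2 := right_ne_zero_of_mul hφ
      have hφ := left_ne_zero_of_mul hφ
      have g3 := right_ne_zero_of_mul hφ
      have hφ := left_ne_zero_of_mul hφ
      have g4 := right_ne_zero_of_mul hφ
      have hφ := left_ne_zero_of_mul hφ
      have g5 := right_ne_zero_of_mul hφ
      have g6 := left_ne_zero_of_mul hφ
      exact ⟨red_O3 n r hnr _ pt P₃t a a₂ a' a₂' c₁ c₂ _ _ hptd hB hB' h3 κ φ g6 g5 g4 g3 g2,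
        Polynomial.natDegree_map_of_leadingCoeff_ne_zero _ g1⟩

theorem hO3 : StO3 := by
  intro k _ _ m n E hn hE
  obtain ⟨δ, P, Q, h1, h2, h3, h4, h5⟩ := key_O3 n hn E hE
  refine ⟨δ, P, Q, h1, h2, h3, h4, ?_⟩
  rcases h5 with h | ⟨P₂, hP₂, h⟩
  · exact Or.inl h
  · refine Or.inr ⟨P₂, hP₂, fun v y hv => ?_⟩
    have hmax : v.asIdeal.IsMaximal := v.isMaximal
    letI : Field (Kv v) := Ideal.Quotient.field v.asIdeal
    exact h (Kv v) (val v y) hv

end Pool.Agent.Helper74.SE
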